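import Pool.Agent.Helper23.CB.Glue3
import Pool.Agent.Helper23.CL.Adm
import Pool.Agent.Helper65.CL.Glue2
import Pool.Agent.Helper14.CB.CofI

/-!
# CB for symbols of prime degrees: the sieve with a natural scaling, degree at most three
-/

set_option autoImplicit false

namespace Pool.Agent.Helper23.CL

open NumberField Polynomial Finset Pool.Agent.Helper4.CB Pool.Agent.Helper25.CB
  Pool.Agent.Helper35.CB Pool.Agent.Helper47.CB Pool.Agent.Helper92.CB Pool.Agent.Helper23.CB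
  Pool.Agent.Helper65.CL
open Pool.Agent.Helper14.CB (CofI)

variable {K : Type} [Field K] [NumberField K]

/-- the class of the norm of an ideal is `a` or `- a` for one of the moduli -/
def ClsL {m : ℕ} (Λ : Finset ℕ) (J : ℕ) (a : ∀ l : ℕ, ZMod (l ^ J)) (I : Im K m) : Prop :=
  ∃ l ∈ Λ, (((Ideal.absNorm I.1 : ℕ) : ZMod (l ^ J)) = a l ∨
    ((Ideal.absNorm I.1 : ℕ) : ZMod (l ^ J)) = - a l)

/-- the cofactor of a bad prime dividing `P(u, s v)`, with any property `Q` of the cofactor -/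
theorem cof_PGQ {m s : ℕ} {P : (𝓞 K)[X]} (hP : P.Monic)
    (hsm : ∀ q : Pm K m, (s : 𝓞 K) ∉ q.1.asIdeal)
    (Q : Im K m → Prop) {C : ℕ}
    (hC : ∀ X : ℕ, 1 ≤ X → ∀ g ∈ bx (eK K) 0 X,
      (Algebra.norm ℤ (hv P g.1 (s * g.2))).natAbs ≤ C * X ^ (P.natDegree * Module.finrank ℚ K))
    {X : ℕ} (hX : 1 ≤ X) {g : 𝓞 K × 𝓞 K} (hg : g ∈ bx (eK K) 0 X)
    (hgam : ∀ q : Pm K m, g ∉ gam q.1.asIdeal) (q : Pm K m)
    (hcof : hv P g.1 (s * g.2) ∈ q.1.asIdeal → ∃ I : Im K m, I.1 ≠ ⊤ ∧ hv P g.1 (s * g.2) ∈ I.1 ∧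
      Ideal.absNorm I.1 * nm q.1 ≤ (Algebra.norm ℤ (hv P g.1 (s * g.2))).natAbs ∧ Q I)
    (t : Rt P (ofPm q).1) (hgt : g ∈ Lam (ofPm q).1 (rep t * s)) :
    ∃ b : Σ I : Im K m, Rt P I.1, (b.1.1 ≠ ⊤ ∧ Q b.1) ∧
      (pf b.1).Nonempty ∧ g ∈ Lam b.1.1 (rep b.2 * s) ∧
      (∀ q' ∈ pf b.1, hv P g.1 (s * g.2) ∈ q'.1.asIdeal) ∧
      Ideal.absNorm b.1.1 * nm q.1 ≤ C * X ^ (P.natDegree * Module.finrank ℚ K) := by
  have hx : hv P g.1 (s * g.2) ∈ q.1.asIdeal :=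
    hv_mem K P hP s _ (rep t) (eval_rep t) g hgt
  obtain ⟨I, hI1, hI2, hI3, hI4⟩ := hcof hx
  obtain ⟨t', ht'⟩ := Pool.Agent.Helper79.CB.root_of_mem' P hP I.1 (s : 𝓞 K) g hI2
    (fun q' hq' hqq' => by
      obtain ⟨q'', hq'', rfl⟩ := exists_pf I q' hq' hqq'
      exact ⟨hsm q'', fun h => hgam q'' (mem_gam.2 h)⟩)
  refine ⟨⟨I, t'⟩, ⟨hI1, hI4⟩, pf_nonempty I hI1, ht', ?_, ?_⟩
  · intro q' hq'
    exact mem_pf.1 hq' hI2
  · exact hI3.trans (hC X hX g hg)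

/-- the admissible cofactors -/
def admL {J : ℕ} (Λ : Finset ℕ) (a : ∀ l : ℕ, (𝓞 K)[X] → ZMod (l ^ J)) (S : Finset (𝓞 K)[X])
    (hS : ∀ P ∈ S, P.Monic) (s m D : ℕ) (hμ : ∀ q : Pm K m, (s : 𝓞 K) ∉ q.1.asIdeal)
    (hD : ∑ P ∈ S, P.natDegree + 1 ≤ D) (hs : s ≠ 0) (hS2 : ∀ P ∈ S, OkP K m P) :
    ∀ o : Option {P // P ∈ S}, Set (facO3 S hS s m D hμ hD hs hS2 o).B
  | none => Set.univ
  | some P => {x : BP K m P.1 | x.1.1 ≠ ⊤ ∧ ClsL Λ J (fun l => a l P.1) x.1}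

/-- the sum over the admissible cofactors -/
theorem adm_sumL {J k : ℕ} {ε : ℝ} {Z0 : ℕ} {Λ : Finset ℕ} (hε : 0 ≤ ε)
    {a : ∀ l : ℕ, ZMod (l ^ J)} (ha : ∀ l ∈ Λ, IsUnit (a l)) {m : ℕ} {P : (𝓞 K)[X]}
    (h : ∀ l ∈ Λ, ∀ z : ℕ, Z0 ≤ z → ∀ a : ZMod (l ^ J), IsUnit a → ∀ A : Finset (BP K m P),
      (∀ x ∈ A, x.1.1 ≠ ⊤ ∧ ((Ideal.absNorm x.1.1 : ℕ) : ZMod (l ^ J)) = a ∧
        Ideal.absNorm x.1.1 ≤ z ^ k ∧ ∀ q ∈ pf x.1, z < nm q.1) →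
      ∑ x ∈ A, (1 : ℝ) / Ideal.absNorm x.1.1 ≤ ε / (2 * (Λ.card + 1))) (z : ℕ) (hz : Z0 ≤ z)
    (A : Finset (BP K m P))
    (hA : ∀ x ∈ A, (x.1.1 ≠ ⊤ ∧ ClsL Λ J a x.1) ∧
        Ideal.absNorm x.1.1 ≤ z ^ k ∧ ∀ q ∈ pf x.1, z < nm q.1) :
    ∑ x ∈ A, (1 : ℝ) / Ideal.absNorm x.1.1 ≤ ε := by
  classical
  have hsub : A ⊆ Λ.biUnion (fun l =>
      A.filter (fun x => ((Ideal.absNorm x.1.1 : ℕ) : ZMod (l ^ J)) = a l) ∪
      A.filter (fun x => ((Ideal.absNorm x.1.1 : ℕ) : ZMod (l ^ J)) = - a l)) := by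
    intro x hx
    obtain ⟨l, hl, h1⟩ := (hA x hx).1.2
    rw [mem_biUnion]
    refine ⟨l, hl, ?_⟩
    rw [mem_union, mem_filter, mem_filter]
    rcases h1 with h1 | h1
    · exact Or.inl ⟨hx, h1⟩
    · exact Or.inr ⟨hx, h1⟩
  have h0 : ∀ x : BP K m P, 0 ≤ (1 : ℝ) / Ideal.absNorm x.1.1 := fun x => by positivity
  refine (sum_le_sum_of_subset_of_nonneg hsub (fun x _ _ => h0 x)).trans ?_
  have h1 : ∀ l ∈ Λ, ∑ x ∈ A.filter (fun x => ((Ideal.absNorm x.1.1 : ℕ) : ZMod (l ^ J)) = a l) ∪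
      A.filter (fun x => ((Ideal.absNorm x.1.1 : ℕ) : ZMod (l ^ J)) = - a l),
      (1 : ℝ) / Ideal.absNorm x.1.1 ≤ ε / (Λ.card + 1) := by
    intro l hl
    have h2 := h l hl z hz (a l) (ha l hl)
      (A.filter (fun x => ((Ideal.absNorm x.1.1 : ℕ) : ZMod (l ^ J)) = a l))
      (fun x hx => by
        rw [mem_filter] at hx
        exact ⟨(hA x hx.1).1.1, hx.2, (hA x hx.1).2⟩)
    have h3 := h l hl z hz (- a l) (ha l hl).neg
      (A.filter (fun x => ((Ideal.absNorm x.1.1 : ℕ) : ZMod (l ^ J)) = - a l))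
      (fun x hx => by
        rw [mem_filter] at hx
        exact ⟨(hA x hx.1).1.1, hx.2, (hA x hx.1).2⟩)
    have h4 := Finset.sum_union_inter (s₁ := A.filter (fun x =>
      ((Ideal.absNorm x.1.1 : ℕ) : ZMod (l ^ J)) = a l)) (s₂ := A.filter (fun x =>
      ((Ideal.absNorm x.1.1 : ℕ) : ZMod (l ^ J)) = - a l))
      (f := fun x : BP K m P => (1 : ℝ) / Ideal.absNorm x.1.1)
    have h5 : 0 ≤ ∑ x ∈ A.filter (fun x => ((Ideal.absNorm x.1.1 : ℕ) : ZMod (l ^ J)) = a l) ∩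
      A.filter (fun x => ((Ideal.absNorm x.1.1 : ℕ) : ZMod (l ^ J)) = - a l),
      (1 : ℝ) / Ideal.absNorm x.1.1 := sum_nonneg (fun x _ => h0 x)
    have h6 : ε / (2 * (Λ.card + 1)) + ε / (2 * (Λ.card + 1)) = ε / ((Λ.card : ℝ) + 1) := by
      field_simp
      ring
    linarith
  have h2 : ∀ (B : Finset ℕ), B ⊆ Λ → ∑ x ∈ B.biUnion (fun l =>
      A.filter (fun x => ((Ideal.absNorm x.1.1 : ℕ) : ZMod (l ^ J)) = a l) ∪
      A.filter (fun x => ((Ideal.absNorm x.1.1 : ℕ) : ZMod (l ^ J)) = - a l)),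
      (1 : ℝ) / Ideal.absNorm x.1.1 ≤ B.card * (ε / (Λ.card + 1)) := by
    intro B
    induction B using Finset.induction_on with
    | empty => intro _; simp
    | insert l B hl ih =>
      intro hB
      rw [biUnion_insert, card_insert_of_notMem hl]
      have h3 := ih ((subset_insert l B).trans hB)
      have h4 := h1 l (hB (mem_insert_self l B))
      have h5 := Finset.sum_union_inter (s₁ := A.filter (fun x =>
        ((Ideal.absNorm x.1.1 : ℕ) : ZMod (l ^ J)) = a l) ∪ A.filter (fun x =>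
        ((Ideal.absNorm x.1.1 : ℕ) : ZMod (l ^ J)) = - a l)) (s₂ := B.biUnion (fun l =>
        A.filter (fun x => ((Ideal.absNorm x.1.1 : ℕ) : ZMod (l ^ J)) = a l) ∪
        A.filter (fun x => ((Ideal.absNorm x.1.1 : ℕ) : ZMod (l ^ J)) = - a l)))
        (f := fun x : BP K m P => (1 : ℝ) / Ideal.absNorm x.1.1)
      have h6 : 0 ≤ ∑ x ∈ (A.filter (fun x =>
        ((Ideal.absNorm x.1.1 : ℕ) : ZMod (l ^ J)) = a l) ∪ A.filter (fun x =>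
        ((Ideal.absNorm x.1.1 : ℕ) : ZMod (l ^ J)) = - a l)) ∩ B.biUnion (fun l =>
        A.filter (fun x => ((Ideal.absNorm x.1.1 : ℕ) : ZMod (l ^ J)) = a l) ∪
        A.filter (fun x => ((Ideal.absNorm x.1.1 : ℕ) : ZMod (l ^ J)) = - a l)),
        (1 : ℝ) / Ideal.absNorm x.1.1 := sum_nonneg (fun x _ => h0 x)
      push_cast
      linarith
  refine (h2 Λ (Subset.refl _)).trans ?_
  rw [← mul_div_assoc, div_le_iff₀ (by positivity)]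
  nlinarith

/-- **the sieve with scaling `s`, degree at most three** -/
theorem glue_three (K : Type) [Field K] [NumberField K] (Λ : Finset ℕ)
    (hΛ : ∀ l ∈ Λ, l.Prime) (D J0 : ℕ) :
    ∃ J Y : ℕ, 1 ≤ J ∧ J0 ≤ J ∧ 2 ≤ Y ∧ (∀ l ∈ Λ, l ∣ Y) ∧ ∀ S : Finset (𝓞 K)[X], S.card ≤ D →
    ∀ (m r s : ℕ) (a : ∀ l : ℕ, (𝓞 K)[X] → ZMod (l ^ J)), (∀ P ∈ S, OkP K m P) → m ≠ 0 →
      Y ∣ m → r.Coprime m → s ≠ 0 → (∀ q : Pm K m, (s : 𝓞 K) ∉ q.1.asIdeal) →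
      (∀ l ∈ Λ, ∀ P ∈ S, IsUnit (a l P)) →
      (∀ u v : 𝓞 K, (m : 𝓞 K) ∣ u - (r : 𝓞 K) → (m : 𝓞 K) ∣ v - (r : 𝓞 K) →
        ∀ l ∈ Λ, Cofac m (l ^ J) v ∧ ∀ P ∈ S, CofI m (l ^ J) (a l P) (hv P u (s * v))) →
      ∀ Z : Finset K, ∃ u v : 𝓞 K,
        (m : 𝓞 K) ∣ u - (r : 𝓞 K) ∧ (m : 𝓞 K) ∣ v - (r : 𝓞 K) ∧ u ≠ 0 ∧ v ≠ 0 ∧
        IsCoprime u ((m : 𝓞 K) * v) ∧ (u : K) / (s * v) ∉ Z ∧
        ∀ p : Pl K, Bad Λ J p → (m : 𝓞 K) ∉ p.asIdeal →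
          v ∉ p.asIdeal ∧ ∀ P ∈ S, hv P u (s * v) ∉ p.asIdeal := by
  classical
  have hn : 1 ≤ Module.finrank ℚ K := Module.finrank_pos
  obtain ⟨Cm, hCm0, hCm⟩ := mertens_upper K
  obtain ⟨Y0, E, k0, ε, hε, hE, hcore⟩ := Pool.Agent.Helper23.CB.core3 (Module.finrank ℚ K) (3 * D + 1) (D + 1) hn Cm
  obtain ⟨J1, hJ1⟩ := Pool.Agent.Helper65.CL.bad_sum K Λ hΛ hε
  obtain ⟨J2, hJ2⟩ := adm_sumM K k0 (ε := ε / (2 * (Λ.card + 1))) (by positivity)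
  obtain ⟨C3, hC3⟩ := sum_nm_rpow K
  obtain ⟨J, hJ⟩ : ∃ J, J = J0 + J1 + J2 + 1 := ⟨_, rfl⟩
  have hJ3 : ∀ l : ℕ, ∃ Z0 : ℕ, l ∈ Λ → ∀ z : ℕ, Z0 ≤ z → ∀ a : ZMod (l ^ J), IsUnit a →
      ∀ (m : ℕ) (P : (𝓞 K)[X]), P.Monic → P.natDegree ≤ 3 →
      (∀ q : Ideal (𝓞 K), (m : 𝓞 K) ∉ q → ∀ t, P.eval t ∈ q → P.derivative.eval t ∉ q) →
      ∀ A : Finset (Σ I : Im K m, Rt P I.1),
      (∀ x ∈ A, x.1.1 ≠ ⊤ ∧ ((Ideal.absNorm x.1.1 : ℕ) : ZMod (l ^ J)) = a ∧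
        Ideal.absNorm x.1.1 ≤ z ^ k0 ∧ ∀ q ∈ pf x.1, z < nm q.1) →
      ∑ x ∈ A, (1 : ℝ) / Ideal.absNorm x.1.1 ≤ ε / (2 * (Λ.card + 1)) := by
    intro l
    by_cases hl : l ∈ Λ
    · have hp := hΛ l hl
      obtain ⟨Z0, hZ0⟩ := hJ2 (l ^ J) (pow_ne_zero _ hp.ne_zero) (by
        rw [Nat.totient_prime_pow hp (by omega)]
        have h1 : J - 1 < 2 ^ (J - 1) := Nat.lt_two_pow_self
        have h2 : 2 ^ (J - 1) ≤ l ^ (J - 1) := Nat.pow_le_pow_left hp.two_le _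
        have h3 : l ^ (J - 1) ≤ l ^ (J - 1) * (l - 1) :=
          Nat.le_mul_of_pos_right _ (by have := hp.two_le; omega)
        omega)
      exact ⟨Z0, fun _ => hZ0⟩
    · exact ⟨0, fun h => absurd h hl⟩
  choose Z1 hZ1 using hJ3
  obtain ⟨Z0, hZdef⟩ : ∃ Z0, Z0 = ∑ l ∈ Λ, Z1 l := ⟨_, rfl⟩
  have hZle : ∀ l ∈ Λ, Z1 l ≤ Z0 := fun l hl => by
    rw [hZdef]
    exact single_le_sum (f := Z1) (fun _ _ => Nat.zero_le _) hl
  have hΛ1 : ∏ l ∈ Λ, l ≠ 0 := Finset.prod_ne_zero_iff.2 (fun l hl => (hΛ l hl).ne_zero)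
  have hY2 : 2 ≤ 2 * (∏ l ∈ Λ, l) * Y0.factorial := by
    have h1 : 1 ≤ ∏ l ∈ Λ, l := Nat.one_le_iff_ne_zero.2 hΛ1
    exact le_trans (by omega) (Nat.le_mul_of_pos_right _ (Nat.factorial_pos _))
  refine ⟨J, 2 * (∏ l ∈ Λ, l) * Y0.factorial, by omega, by omega, hY2,
    fun l hl => ((Finset.dvd_prod_of_mem _ hl).mul_left 2).mul_right _,
    fun S hSD m r s a hS hm0 hYm hrm hs0 hμ ha hcof Z => ?_⟩
  have hmY : Y0.factorial ∣ m := (Dvd.intro_left _ rfl).trans hYm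
  have hmK : (m : 𝓞 K) ≠ 0 := Nat.cast_ne_zero.2 hm0
  have hm2 : m ≠ 1 := by
    rintro rfl
    have := Nat.le_of_dvd (by norm_num) hYm
    omega
  have hr0 : ∀ x : 𝓞 K, (m : 𝓞 K) ∣ x - (r : 𝓞 K) → x ≠ 0 := ne_zero_of_congr hm2 hrm
  have hSm : ∀ P ∈ S, P.Monic := fun P hP => (hS P hP).1
  have hD : ∑ P ∈ S, P.natDegree + 1 ≤ 3 * D + 1 := by
    have h1 : ∑ P ∈ S, P.natDegree ≤ ∑ _P ∈ S, 3 := sum_le_sum (fun P hP => (hS P hP).2.2.1)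
    rw [sum_const, smul_eq_mul] at h1
    omega
  obtain ⟨f, hf⟩ := exists_surj S hSD
  -- constants
  choose! C1 hC1 using fun P : (𝓞 K)[X] => Helper75.CB.norm_hv_le (K := K) P (s : 𝓞 K)
  obtain ⟨C2, hC2⟩ := Helper75.CB.norm_fst_le K
  obtain ⟨C4, hC4⟩ := Helper75.CB.norm_snd_le K
  obtain ⟨C5, hC5⟩ := rad_both K (eK K)
  obtain ⟨C, hC⟩ : ∃ C, C = ∑ P ∈ S, C1 P * 2 ^ (P.natDegree * Module.finrank ℚ K) +
    C2 * 2 ^ Module.finrank ℚ K + C4 * 2 ^ Module.finrank ℚ K + C5 + ⌈C3⌉₊ := ⟨_, rfl⟩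
  obtain ⟨T1, hT1⟩ := hcore (𝓞 K × 𝓞 K) (sysG S hSm (s : 𝓞 K) m (3 * D + 1) hμ hD) rfl
    (fun q => le_nm_of_factorial hmY q)
    (by
      intro x y hx hxy
      refine le_trans ?_ (hCm x y hx hxy)
      refine sum_sub_le (K := K) (m := m) _ _ (fun p => Real.log (nm p) / nm p) log_div_nonneg ?_
      intro q hq
      have hq' := (@Finset.mem_filter _ _ (_) _ _).1 hq
      exact (@Finset.mem_filter _ _ (_) _ _).2 ⟨mem_plLE.2 ((Sys.mem_le _).1 hq'.1), hq'.2⟩)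
    {q | Bad Λ J q.1}
    (by
      intro x hx
      refine le_trans ?_ (hJ1 J (by omega) x hx)
      refine sum_sub_le (K := K) (m := m) _ _ (fun p => Real.log (nm p) / nm p) log_div_nonneg ?_
      intro q hq
      have hq' := (@Finset.mem_filter _ _ (_) _ _).1 hq
      exact (@Finset.mem_filter _ _ (_) _ _).2 ⟨mem_plLE.2 ((Sys.mem_le _).1 hq'.1), hq'.2⟩)
    (fun l => facO3 S hSm s m (3 * D + 1) hμ hD hs0 hS (f l))
    (fun l => admL Λ a S hSm s m (3 * D + 1) hμ hD hs0 hS (f l))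
    (by
      intro l
      rcases f l with _ | P
      · intro hd
        exact absurd hd (by decide : (1 : ℕ) ≠ 3)
      · intro hd
        refine ⟨facP3G_win (S := S) (hS := hSm) (ν := s) (m := m) (D := 3 * D + 1) (hμ := hμ)
          (hD := hD) (hν := hs0) (P := P.1) (hP := hSm P.1 P.2) (h1 := (hS P.1 P.2).2.1)
          (h3 := (hS P.1 P.2).2.2.1) (hirr := (hS P.1 P.2).2.2.2.1)
          (hdisc := (hS P.1 P.2).2.2.2.2) hd, Z0, fun z hz A hA => ?_⟩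
        exact adm_sumL hε.le (fun l hl => ha l hl P.1 P.2) (fun l hl z hz a ha A hA =>
          hZ1 l hl z ((hZle l hl).trans hz) a ha m P.1 (hS P.1 P.2).1 (hS P.1 P.2).2.2.1
            (hS P.1 P.2).2.2.2.2 A hA) z hz A hA)
    (by
      intro q hq g hg
      right
      rcases cover3G hSm q (hμ q) hg with h | ⟨P, hP, t, hgt⟩
      · obtain ⟨l, hl⟩ := hf none
        refine ⟨l, ?_⟩
        rw [hl]
        exact ⟨ofPm q, mem_facV3G_P.2 rfl, h⟩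
      · obtain ⟨l, hl⟩ := hf (some ⟨P, hP⟩)
        refine ⟨l, ?_⟩
        rw [hl]
        exact ⟨(⟨ofPm q, t⟩ : BP K m P), (facO3_mem ⟨P, hP⟩ q _).2 rfl, hgt⟩)
    (gam (Ideal.span {(m : 𝓞 K)})) ((r : 𝓞 K), (r : 𝓞 K)) (fun _ => tau K) C
    (index_span_ne_zero hmK)
    (fun T => com_span T (fun q : Pm K m => q.1) (m : 𝓞 K) (fun q _ => q.2))
    (by
      intro l
      rcases f l with _ | P
      · intro b T _
        exact base_facV3G b T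
      · intro b T _
        exact base_sup b.1 _ (gam_le_Lam _ _) T)
    (by
      -- the cofactor
      intro X hX g hg hg0 hgam l
      have hgu : (m : 𝓞 K) ∣ g.1 - (r : 𝓞 K) := Ideal.mem_span_singleton.1 hg0.1
      have hgv : (m : 𝓞 K) ∣ g.2 - (r : 𝓞 K) := Ideal.mem_span_singleton.1 hg0.2
      rcases f l with _ | P
      · intro q hq p hp hgp
        have hp' : p = ofPm q := mem_facV3G_P.1 hp
        subst hp'
        obtain ⟨l', hl', hq1⟩ := hq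
        obtain ⟨q', h1, h2⟩ := (hcof g.1 g.2 hgu hgv l' hl').1 q.1 q.2 hq1 hgp
        refine ⟨ofPm q', Set.mem_univ _, ?_, h1, ?_, ?_⟩
        · show (pf (ofPm q')).Nonempty
          rw [pf_ofPm]
          exact Finset.singleton_nonempty _
        · intro q'' hq''
          have h3 : ∀ x : Pm K m, x ∈ pf (ofPm q') → x = q' := by
            intro x hx
            rwa [pf_ofPm, Finset.mem_singleton] at hx
          have h4 : q'' = q' := h3 q'' hq''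
          rw [h4]
          exact Or.inl h1
        · refine h2.trans ((hC4 (2 * X) (by omega) g (box_sub hX hg)).trans ?_)
          show C4 * (2 * X) ^ Module.finrank ℚ K ≤ C * X ^ (1 * Module.finrank ℚ K)
          rw [one_mul, mul_pow, ← mul_assoc]
          exact Nat.mul_le_mul_right _ (by omega)
      · intro q hq p hp hgp
        have hp' : p.1 = ofPm q := (facO3_mem P q p).1 hp
        obtain ⟨I, t⟩ := p
        have hp'' : I = ofPm q := hp'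
        subst hp''
        obtain ⟨l', hl', hq1⟩ := hq
        obtain ⟨b, h1, h2, h3, h4, h5⟩ := cof_PGQ (hS P.1 P.2).1 hμ
          (ClsL Λ J (fun l => a l P.1)) (hC1 P.1)
          (X := 2 * X) (by omega) (box_sub hX hg) hgam q
          (fun hx => by
            obtain ⟨I, g1, g2, g3, g4⟩ :=
              (hcof g.1 g.2 hgu hgv l' hl').2 P.1 P.2 q.1 q.2 hq1 hx
            exact ⟨I, g1, g2, g3, l', hl', g4⟩) t hgp
        refine ⟨b, h1, h2, h3, fun q' hq' => Or.inr ⟨P.1, P.2, h4 q' hq'⟩, h5.trans ?_⟩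
        show C1 P.1 * (2 * X) ^ (P.1.natDegree * Module.finrank ℚ K) ≤
          C * X ^ (P.1.natDegree * Module.finrank ℚ K)
        rw [mul_pow, ← mul_assoc]
        refine Nat.mul_le_mul_right _ ?_
        have h3 : C1 P.1 * 2 ^ (P.1.natDegree * Module.finrank ℚ K) ≤
            ∑ P ∈ S, C1 P * 2 ^ (P.natDegree * Module.finrank ℚ K) :=
          single_le_sum (f := fun P : (𝓞 K)[X] => C1 P * 2 ^ (P.natDegree * Module.finrank ℚ K))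
            (fun _ _ => Nat.zero_le _) P.2
        omega)
    (by
      intro X hX g hg q hq
      have h1 := nm_le_norm (fst_ne_zero hg) q.1 hq.1
      refine h1.trans ((hC2 (2 * X) (by omega) g (box_sub hX hg)).trans ?_)
      rw [mul_pow, ← mul_assoc]
      exact Nat.mul_le_mul_right _ (by omega))
    (by
      intro q ρ hρ
      have h1 := hC5 q.1 (gam q.1.asIdeal) (fun g => mem_gam) ρ hρ
      intro g
      obtain ⟨l, hl, h2⟩ := h1 g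
      refine ⟨l, hl, fun i => (h2 i).trans ?_⟩
      have : C5 * ρ ≤ C * ρ := Nat.mul_le_mul_right _ (by omega)
      exact_mod_cast this)
    (by
      intro T
      have h1 : ∑ q ∈ T, (nm q.1 : ℝ) ^ (-(3 / 2) : ℝ) ≤ C3 := by
        exact le_trans (Finset.sum_map T (Function.Embedding.subtype _)
          (fun v : Pl K => (nm v : ℝ) ^ (-(3 / 2) : ℝ))).ge
            (hC3 (T.map (Function.Embedding.subtype _)))
      refine h1.trans ((Nat.le_ceil C3).trans ?_)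
      have : ⌈C3⌉₊ ≤ C := by omega
      exact_mod_cast this)
  -- the choice of the box
  obtain ⟨X2, hX2⟩ := rpow_gt (Module.finrank ℚ K) Z.card hn
  obtain ⟨X, hXdef⟩ : ∃ X, X = (T1 + X2 + 1) ^ (2 * E) := ⟨_, rfl⟩
  have hX2X : X2 ≤ X := by
    rw [hXdef]
    calc X2 ≤ T1 + X2 + 1 := by omega
      _ = (T1 + X2 + 1) ^ 1 := (pow_one _).symm
      _ ≤ (T1 + X2 + 1) ^ (2 * E) := Nat.pow_le_pow_right (by omega) (by omega)
  have hA := hT1 (T1 + X2 + 1) (by omega)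
  rw [← hXdef] at hA
  have hB := hX2 X hX2X
  obtain ⟨A, hAdef⟩ : ∃ A, A = (bx (eK K) (tau K) X).filter (fun g =>
      g - ((r : 𝓞 K), (r : 𝓞 K)) ∈ gam (Ideal.span {(m : 𝓞 K)}) ∧
        (∀ q : Pm K m, Bad Λ J q.1 → g ∉ EV S (s : 𝓞 K) q.1) ∧
        ∀ q : Pm K m, g ∉ gam q.1.asIdeal) := ⟨_, rfl⟩
  have hAc : (X : ℝ) ^ ((2 * Module.finrank ℚ K : ℝ) - 1 / 2) ≤ A.card := by
    refine hA.trans (le_of_eq ?_)
    rw [hAdef]
    congr 2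
  obtain ⟨B, hBdef⟩ : ∃ B, B = Z.biUnion (fun z => (bx (eK K) (tau K) X).filter
      (fun g => (g.1 : K) = (z * s) * (g.2 : K))) := ⟨_, rfl⟩
  have hBc : B.card ≤ Z.card * X ^ Module.finrank ℚ K := by
    rw [hBdef]
    refine card_biUnion_le.trans ((sum_le_card_nsmul _ _ (X ^ Module.finrank ℚ K)
      (fun z _ => Helper32.CB.card_line K (z * s) _ X)).trans (le_of_eq (smul_eq_mul _ _)))
  have hlt : B.card < A.card := by
    have h1 : (B.card : ℝ) < A.card := by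
      refine lt_of_le_of_lt ?_ (hB.trans_le hAc)
      exact_mod_cast hBc
    exact_mod_cast h1
  obtain ⟨g, hgA, hgB⟩ := exists_mem_notMem_of_card_lt_card hlt
  rw [hAdef, mem_filter] at hgA
  obtain ⟨hgX, hg0, hgE, hgG⟩ := hgA
  have hgu : (m : 𝓞 K) ∣ g.1 - (r : 𝓞 K) := Ideal.mem_span_singleton.1 hg0.1
  have hgv : (m : 𝓞 K) ∣ g.2 - (r : 𝓞 K) := Ideal.mem_span_singleton.1 hg0.2
  have hv0 : g.2 ≠ 0 := hr0 _ hgv
  refine ⟨g.1, g.2, hgu, hgv, fst_ne_zero hgX, hv0, ?_, ?_, ?_⟩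
  · refine Helper56.CB.coprime_of_places
      (fun p hp => Pool.Agent.Helper35.CB.notMem_of_congr hrm hgu p hp) ?_
    rintro p ⟨hp1, hp2⟩
    by_cases hp : (m : 𝓞 K) ∈ p.asIdeal
    · exact Pool.Agent.Helper35.CB.notMem_of_congr hrm hgu p hp hp1
    · exact hgG ⟨p, hp⟩ ⟨hp1, hp2⟩
  · intro hz
    apply hgB
    rw [hBdef, mem_biUnion]
    refine ⟨_, hz, mem_filter.2 ⟨hgX, ?_⟩⟩
    have h1 : (s : K) ≠ 0 := Nat.cast_ne_zero.2 hs0
    have h2 : (g.2 : K) ≠ 0 := by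
      intro h
      exact hv0 (RingOfIntegers.ext h)
    field_simp
  · intro p hp hpm
    have h1 := hgE ⟨p, hpm⟩ hp
    exact ⟨fun h => h1 (Or.inl h), fun P hP h => h1 (Or.inr ⟨P, hP, h⟩)⟩

end Pool.Agent.Helper23.CL
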