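import Pool.Agent.Helper23.CL.Glue3
import Pool.Agent.Helper65.CL.Base
import Pool.Agent.Helper35.CB.SieveGTwo

/-!
# CB for symbols of prime degrees: `SieveG` for polynomials of degree at most three
-/

set_option autoImplicit false

namespace Pool.Agent.Helper23.CL

open NumberField Polynomial Finset Pool.Agent.Helper4.CB Pool.Agent.Helper25.CB
  Pool.Agent.Helper35.CB Pool.Agent.Helper23.CB
open Pool.Agent.Helper65.CL (SieveG exists_base)

/-- **SieveG for degree at most three and a finite set of primes** -/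
theorem sieveG_three (Λ : Finset ℕ) (hΛ : ∀ l ∈ Λ, l.Prime) (K : Type) [Field K] [NumberField K] :
    SieveG Λ K 3 := by
  intro D J0
  obtain ⟨J1, hJ1⟩ := exists_base K Λ hΛ D 3 (by norm_num)
  obtain ⟨J, Y, hJ, hJJ, hY, hlY, h⟩ := Pool.Agent.Helper23.CL.glue_three K Λ hΛ D (J0 + J1)
  refine ⟨J, Y, by omega, by omega, fun S hSD hS m1 hm1 hYm hdisc _ Z => ?_⟩
  have h1m : 1 < m1 := lt_of_lt_of_le (by omega) (Nat.le_of_dvd (Nat.pos_of_ne_zero hm1) hYm)
  obtain ⟨k, r, α, hk, hr, hα, hbase⟩ := hJ1 J (by omega) S hSD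
    (fun P hP => ⟨(hS P hP).1, (hS P hP).2.1, (hS P hP).2.2.1, (hS P hP).2.2.2.2⟩) m1 h1m
    (fun l hl => (hlY l hl).trans hYm)
  have hOk : ∀ P ∈ S, OkP K (m1 ^ k) P := by
    intro P hP
    refine ⟨(hS P hP).1, (hS P hP).2.1, (hS P hP).2.2.1, (hS P hP).2.2.2.1, ?_⟩
    intro q hq t h1 h2
    obtain ⟨A, B, hAB⟩ := hdisc P hP
    apply hq
    have h3 : (m1 : 𝓞 K) ∈ q := by
      have h4 := congrArg (fun R : (𝓞 K)[X] => R.eval t) hAB
      simp only [eval_add, eval_mul, eval_C] at h4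
      rw [← h4]
      exact q.add_mem (q.mul_mem_left _ h1) (q.mul_mem_left _ h2)
    rw [Nat.cast_pow]
    exact q.pow_mem_of_mem h3 k hk
  obtain ⟨u, v, h1, h2, h3, h4, -, h6, h7⟩ := h S hSD (m1 ^ k) r 1 α hOk (pow_ne_zero _ hm1)
    (hYm.trans (dvd_pow_self _ (by omega))) (hr.pow_right k) one_ne_zero
    (fun q hq => q.1.isPrime.ne_top ((Ideal.eq_top_iff_one _).2 (by rwa [Nat.cast_one] at hq)))
    hα
    (by
      intro u v hu hv
      rw [Nat.cast_one, one_mul]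
      exact hbase u v hu hv) Z
  refine ⟨k, r, u, v, hk, hr, h1, h2, h4, ?_, ?_⟩
  · rwa [Nat.cast_one, one_mul] at h6
  · intro p hp hmp
    obtain ⟨h9, h10⟩ := h7 p hp (fun h => hmp ((pow_mem_iff hk p).1 h))
    refine ⟨h9, fun P hP => ?_⟩
    have := h10 P hP
    rwa [Nat.cast_one, one_mul] at this

end Pool.Agent.Helper23.CL
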